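import Pool.Agent.Q255.IC.Stm

set_option autoImplicit false

/-!
# IC-BALQ: dimension of the balanced sequences
-/

namespace Pool.Agent.Q257.IC

open Pool.Agent.Q255.IC
open Filter Topology MeasureTheory
open scoped ENNReal

theorem dimS_mono {S T : Set (ℕ → Bool)} (h : S ⊆ T) : dimS S ≤ dimS T := by
  unfold dimS
  exact @dimH_mono _ (_) _ _ h

/-- words of length `K` with `r` values `false` -/
def words (K r : ℕ) : Finset (Fin K → Bool) :=
  Finset.univ.filter fun s => (Finset.univ.filter fun k => s k = false).card = r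

theorem card_words (K r : ℕ) : (words K r).card = K.choose r := by
  have h : (words K r).card = (Finset.powersetCard r (Finset.univ : Finset (Fin K))).card := by
    refine Finset.card_bij (fun s _ => Finset.univ.filter fun k => s k = false) ?_ ?_ ?_
    · intro s hs
      rw [Finset.mem_powersetCard]
      exact ⟨Finset.subset_univ _, (Finset.mem_filter.1 hs).2⟩
    · intro s _ t _ hst
      funext k
      have h1 : k ∈ Finset.univ.filter (fun k => s k = false) ↔ k ∈ Finset.univ.filter (fun k => t k = false) := by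
        rw [hst]
      simp only [Finset.mem_filter, Finset.mem_univ, true_and] at h1
      cases hs : s k <;> cases ht : t k <;> simp_all
    · intro T hT
      rw [Finset.mem_powersetCard] at hT
      have h1 : (Finset.univ.filter fun k => (decide (k ∉ T)) = false) = T := by
        ext k
        simp
      refine ⟨fun k => decide (k ∉ T), ?_, h1⟩
      unfold words
      rw [Finset.mem_filter]
      refine ⟨Finset.mem_univ _, ?_⟩
      rw [h1]
      exact hT.2
  rw [h, Finset.card_powersetCard, Finset.card_univ, Fintype.card_fin]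

/-- the sum of the signs of a word -/
theorem sum_word {K r : ℕ} {s : Fin K → Bool} (hs : s ∈ words K r) :
    ∑ k, (if s k then (1 : ℝ) else -1) = (K : ℝ) - 2 * r := by
  have h1 : (Finset.univ.filter fun k => s k = false).card = r := (Finset.mem_filter.1 hs).2
  have h2 : ∀ k, (if s k then (1 : ℝ) else -1) = 1 - 2 * (if s k = false then 1 else 0) := by
    intro k
    cases s k <;> norm_num
  rw [Finset.sum_congr rfl fun k _ => h2 k, Finset.sum_sub_distrib, ← Finset.mul_sum, Finset.sum_boole, h1]
  simp

theorem blocks_bal {K r : ℕ} (u : ℝ) (hu0 : 0 ≤ u) (hu1 : u ≤ 1) (hK : 0 < K) (hr : (K : ℝ) - 2 * r + K * u = 0)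
    (ω : ℕ → Bool) (hω : ∀ i : ℕ, (fun k : Fin K => ω (i * K + k)) ∈ words K r) : Bal u ω := by
  refine ⟨2 * K, ?_⟩
  intro n
  have hblock : ∀ i, ∑ k ∈ Finset.range (i * K), (sg ω k + u) = 0 := by
    intro i
    induction i with
    | zero => simp
    | succ i ih =>
      have e : (i + 1) * K = i * K + K := by ring
      rw [e, Finset.sum_range_add, ih, zero_add, Finset.sum_range fun k => sg ω (i * K + k) + u,
        Finset.sum_add_distrib]
      have h1 : ∑ k : Fin K, sg ω (i * K + (k : ℕ)) = (K : ℝ) - 2 * r := sum_word (hω i)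
      rw [h1]
      simp only [Finset.sum_const, Finset.card_univ, Fintype.card_fin, nsmul_eq_mul]
      exact hr
  have hn : n = (n / K) * K + n % K := (Nat.div_add_mod' n K).symm
  have h2 : ∑ k ∈ Finset.range n, (sg ω k + u) = ∑ k ∈ Finset.range (n % K), (sg ω ((n / K) * K + k) + u) := by
    conv_lhs => rw [hn]
    rw [Finset.sum_range_add, hblock, zero_add]
  rw [h2]
  refine (Finset.abs_sum_le_sum_abs _ _).trans ?_
  have h3 : ∀ k, |sg ω k + u| ≤ 2 := by
    intro k
    unfold sg
    split_ifs
    · rw [abs_le]; constructor <;> linarith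
    · rw [abs_le]; constructor <;> linarith
  refine (Finset.sum_le_card_nsmul _ _ 2 fun k _ => h3 _).trans ?_
  rw [Finset.card_range, nsmul_eq_mul]
  have h4 : ((n % K : ℕ) : ℝ) ≤ K := by exact_mod_cast (Nat.mod_lt n hK).le
  linarith

theorem t_BALQ (h1 : S_BLK) (h2 : S_CH) : S_BALQ := by
  intro x y hy hxy
  have hyr : (0 : ℝ) < y := by exact_mod_cast hy
  have hlog2 : 0 < Real.log 2 := Real.log_pos (by norm_num)
  set u : ℝ := (x : ℝ) / y with hu
  have hu0 : 0 ≤ u := by positivity
  have hu1 : u ≤ 1 := by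
    rw [hu, div_le_one hyr]
    exact_mod_cast hxy
  -- the bound for one block length
  have hone : ∀ j : ℕ, ENNReal.ofReal (Real.binEntropy ((1 + u) / 2) / Real.log 2 -
      Real.log (((2 * y * (j + 1) : ℕ) : ℝ) + 1) / (((2 * y * (j + 1) : ℕ) : ℝ) * Real.log 2)) ≤ dimS {ω | Bal u ω} := by
    intro j
    set K := 2 * y * (j + 1) with hK
    set r := (y + x) * (j + 1) with hr
    have hK0 : 0 < K := by positivity
    have hKr : (0 : ℝ) < K := by exact_mod_cast hK0
    have hrK : r ≤ K := by
      rw [hr, hK]
      exact Nat.mul_le_mul_right _ (by omega)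
    have hcard := card_words K r
    have hne : (words K r).Nonempty := by
      rw [← Finset.card_pos, hcard]
      exact Nat.choose_pos hrK
    have h3 := h1 K (words K r) hK0 hne
    have h4 := h2 K r hK0 hrK
    have e1 : (r : ℝ) / K = (1 + u) / 2 := by
      rw [hr, hK, hu]
      push_cast
      have hj : (0 : ℝ) < (j : ℝ) + 1 := by positivity
      field_simp
    rw [e1] at h4
    have hsub : {ω : ℕ → Bool | ∀ i : ℕ, (fun k : Fin K => ω (i * K + k)) ∈ words K r} ⊆ {ω | Bal u ω} := by
      intro ω hω
      refine blocks_bal u hu0 hu1 hK0 ?_ ω hω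
      rw [hr, hK, hu]
      push_cast
      field_simp
      ring
    refine le_trans ?_ (h3.trans (dimS_mono hsub))
    refine ENNReal.ofReal_le_ofReal ?_
    rw [hcard]
    have e2 : Real.binEntropy ((1 + u) / 2) / Real.log 2 - Real.log ((K : ℝ) + 1) / ((K : ℝ) * Real.log 2) =
        (K * Real.binEntropy ((1 + u) / 2) - Real.log ((K : ℝ) + 1)) / (K * Real.log 2) := by
      field_simp
    rw [e2]
    exact div_le_div_of_nonneg_right h4 (by positivity)
  -- the limit
  have hlim : Tendsto (fun j : ℕ => Real.binEntropy ((1 + u) / 2) / Real.log 2 -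
      Real.log (((2 * y * (j + 1) : ℕ) : ℝ) + 1) / (((2 * y * (j + 1) : ℕ) : ℝ) * Real.log 2)) atTop
      (𝓝 (Real.binEntropy ((1 + u) / 2) / Real.log 2)) := by
    have hK : Tendsto (fun j : ℕ => ((2 * y * (j + 1) : ℕ) : ℝ) + 1) atTop atTop := by
      refine tendsto_atTop_add_const_right _ _ ?_
      refine tendsto_natCast_atTop_atTop.comp ?_
      refine tendsto_atTop_mono (fun j => ?_) tendsto_id
      show j ≤ 2 * y * (j + 1)
      nlinarith
    have h3 : Tendsto (fun t : ℝ => Real.log t / t) atTop (𝓝 0) := by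
      have := Real.isLittleO_log_id_atTop.tendsto_div_nhds_zero
      exact this
    have h4 := h3.comp hK
    have h5 : Tendsto (fun j : ℕ => Real.log (((2 * y * (j + 1) : ℕ) : ℝ) + 1) /
        (((2 * y * (j + 1) : ℕ) : ℝ) * Real.log 2)) atTop (𝓝 0) := by
      have h6 : Tendsto (fun j : ℕ => (2 / Real.log 2) * (Real.log (((2 * y * (j + 1) : ℕ) : ℝ) + 1) /
          (((2 * y * (j + 1) : ℕ) : ℝ) + 1))) atTop (𝓝 ((2 / Real.log 2) * 0)) := h4.const_mul _
      rw [mul_zero] at h6
      refine squeeze_zero (fun j => ?_) (fun j => ?_) h6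
      · have : (0 : ℝ) ≤ ((2 * y * (j + 1) : ℕ) : ℝ) := Nat.cast_nonneg _
        have h7 : 0 ≤ Real.log (((2 * y * (j + 1) : ℕ) : ℝ) + 1) := Real.log_nonneg (by linarith)
        positivity
      · have hge : (1 : ℝ) ≤ ((2 * y * (j + 1) : ℕ) : ℝ) := by
          have : 1 ≤ 2 * y * (j + 1) := by nlinarith
          exact_mod_cast this
        set z : ℝ := ((2 * y * (j + 1) : ℕ) : ℝ) with hz
        have h7 : 0 ≤ Real.log (z + 1) := Real.log_nonneg (by linarith)
        have e : 2 / Real.log 2 * (Real.log (z + 1) / (z + 1)) = Real.log (z + 1) * 2 / ((z + 1) * Real.log 2) := by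
          field_simp
        rw [e, div_le_div_iff₀ (by positivity) (by positivity)]
        have h8 : (z + 1) ≤ 2 * z := by linarith
        have h9 := mul_le_mul_of_nonneg_left h8 (mul_nonneg h7 hlog2.le)
        nlinarith
    have := (tendsto_const_nhds (x := Real.binEntropy ((1 + u) / 2) / Real.log 2)).sub h5
    rwa [sub_zero] at this
  exact le_of_tendsto' (ENNReal.tendsto_ofReal hlim) hone

end Pool.Agent.Q257.IC
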