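import Pool.Agent.Q255.IC.Stm
import Pool.Agent.TH958.BV.Weights

set_option autoImplicit false

/-!
# IC-UNI: uniqueness of the traces of Frobenius; points on the projective line
-/

namespace Pool.Agent.Q257.IC

open Pool.Agent.Q255.IC
open Filter Topology MeasureTheory

theorem pr_prime (k : ℕ) : (pr k).Prime := Nat.prime_nth_prime k

theorem frob_unique {n : ℕ} (X : Finset (MvPolynomial (Fin n) ℤ)) (d i p : ℕ) (hp : p.Prime) (hi : i ≤ 2 * d)
    {N N' : ℕ} (α : Fin N → ℂ) (α' : Fin N' → ℂ) (h : IsFrob X d i p α) (h' : IsFrob X d i p α') :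
    (Finset.univ.val.map α : Multiset ℂ) = Finset.univ.val.map α' := by
  obtain ⟨β, h1, h2, h3⟩ := h
  obtain ⟨β', h1', h2', h3'⟩ := h'
  rw [← h1, ← h1']
  have hp1 : (1 : ℝ) < p := by exact_mod_cast hp.one_lt
  refine Pool.Agent.TH958.BV.weights_unique (p : ℝ) hp1 (2 * d + 1) β β' h2 h2' ?_ (by omega)
  intro e he
  have : Fact p.Prime := ⟨hp⟩
  have hc : Nat.card (GaloisField p e) = p ^ e := GaloisField.card p e (by omega)
  have a1 := h3 (GaloisField p e) e inferInstance hc
  have a2 := h3' (GaloisField p e) e inferInstance hc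
  rw [a1] at a2
  have hne : (p : ℂ) ^ e - 1 ≠ 0 := by
    intro h0
    have h4 : (p : ℂ) ^ e = 1 := by linear_combination h0
    have h5 : ((p ^ e : ℕ) : ℂ) = ((1 : ℕ) : ℂ) := by push_cast; exact h4
    have h6 : p ^ e = 1 := by exact_mod_cast h5
    have h7 : 1 < p ^ e := Nat.one_lt_pow (by omega) hp.one_lt
    omega
  exact mul_left_cancel₀ hne a2

theorem t_UNI : S_UNI := by
  intro n X d i hi N N' α α' h h'
  have hev := h.1.and h'.1
  have hmap : ∀ᶠ k in atTop, (Finset.univ.val.map (α k) : Multiset ℂ) = Finset.univ.val.map (α' k) := by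
    filter_upwards [hev] with k hk
    exact frob_unique X d i (pr k) (pr_prime k) hi (α k) (α' k) hk.1 hk.2
  refine ⟨?_, ?_⟩
  · obtain ⟨k, hk⟩ := hmap.exists
    have := congrArg Multiset.card hk
    simpa using this
  · filter_upwards [hmap] with k hk
    have h1 : ∑ j, α k j = ∑ j, α' k j := congrArg Multiset.sum hk
    unfold av
    rw [h1]

theorem le_pr (k : ℕ) : k ≤ pr k := by
  have h : StrictMono pr := Nat.nth_strictMono Nat.infinite_setOfPred_prime
  exact h.le_apply

/-- the number of the nonzero solutions -/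
theorem cone_points (N p : ℕ) (hp : p.Prime) (hN : N ≤ p) (κ : Type) [Field κ] [Finite κ] [CharP κ p] :
    cone (points N) κ = (Nat.card κ - 1) * N := by
  have haev : ∀ u : Fin 2 → κ, (∀ f ∈ points N, MvPolynomial.aeval u f = 0) ↔
      ∏ j ∈ Finset.range N, (u 0 - (j : κ) * u 1) = 0 := by
    intro u
    unfold points
    constructor
    · intro h
      have h1 := h _ (Finset.mem_singleton_self _)
      rw [map_prod] at h1
      simpa using h1
    · intro h f hf
      rw [Finset.mem_singleton] at hf
      rw [hf, map_prod]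
      simpa using h
  let F : κˣ × Fin N → {u : Fin 2 → κ // u ≠ 0 ∧ ∀ f ∈ points N, MvPolynomial.aeval u f = 0} := fun z =>
    ⟨![(z.2 : ℕ) * (z.1 : κ), (z.1 : κ)], by
      refine ⟨?_, ?_⟩
      · intro h0
        have := congrFun h0 1
        simp at this
      · rw [haev]
        refine Finset.prod_eq_zero (Finset.mem_range.2 z.2.2) ?_
        simp⟩
  have hF : Function.Bijective F := by
    constructor
    · rintro ⟨y, j⟩ ⟨y', j'⟩ h
      have h0 := congrArg Subtype.val h
      have h1 : (y : κ) = (y' : κ) := congrFun h0 1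
      have h2 : ((j : ℕ) : κ) * (y : κ) = ((j' : ℕ) : κ) * (y' : κ) := congrFun h0 0
      have hy : y = y' := Units.ext h1
      subst hy
      have h3 : ((j : ℕ) : κ) = ((j' : ℕ) : κ) := mul_right_cancel₀ (Units.ne_zero y) h2
      have h4 : (j : ℕ) = (j' : ℕ) := CharP.natCast_injOn_Iio κ p (Set.mem_Iio.2 (j.2.trans_le hN))
        (Set.mem_Iio.2 (j'.2.trans_le hN)) h3
      rw [Fin.ext h4]
    · rintro ⟨u, hu0, hu⟩
      have hu' := (haev u).1 hu
      rw [Finset.prod_eq_zero_iff] at hu'
      obtain ⟨j, hj, hj0⟩ := hu'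
      have h1 : u 1 ≠ 0 := by
        intro h1
        rw [h1, mul_zero, sub_zero] at hj0
        apply hu0
        funext i
        fin_cases i
        · exact hj0
        · exact h1
      refine ⟨(Units.mk0 (u 1) h1, ⟨j, Finset.mem_range.1 hj⟩), ?_⟩
      apply Subtype.ext
      funext i
      fin_cases i
      · show (j : κ) * u 1 = u 0
        linear_combination -hj0
      · rfl
  unfold cone
  rw [← Nat.card_congr (Equiv.ofBijective F hF), Nat.card_prod, Nat.card_units, Nat.card_fin]

theorem t_PTS : S_PTS := by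
  intro N hN
  refine ⟨?_, ?_⟩
  · filter_upwards [eventually_ge_atTop N] with k hk
    have hp := pr_prime k
    have hNp : N ≤ pr k := hk.trans (le_pr k)
    refine ⟨fun i => if i = 0 then Finset.univ.val.map (fun _ : Fin N => (1 : ℂ)) else 0, by simp, ?_, ?_⟩
    · intro i z hz
      by_cases hi : i = 0
      · subst hi
        simp only [if_true] at hz
        rw [Multiset.mem_map] at hz
        obtain ⟨_, _, rfl⟩ := hz
        simp
      · simp only [if_neg hi] at hz
        exact absurd hz (Multiset.notMem_zero _)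
    · intro κ _ _ e hch hcard
      have := hch
      rw [cone_points N (pr k) hp hNp κ, hcard]
      have h1 : 1 ≤ pr k ^ e := Nat.one_le_pow _ _ hp.pos
      push_cast [Nat.cast_sub h1]
      simp
  · intro k j
    simp

end Pool.Agent.Q257.IC
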